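import Mathlib
import Pool.Agent.H.MP_0c10a3_al.Dec

namespace Pool.Agent.H.MP_8fc759_al
open FreeGroup (of lift lift_apply_of)
open Pool.Agent.H.MP_0c10a3_al

variable {X : Type}

abbrev ab {G : Type} [Group G] : G →* Abelianization G := Abelianization.of

lemma ab_com {G A : Type} [Group G] [CommGroup A] (θ : G →* A) {u v : G} (h : ab u = ab v) :
    θ u = θ v := by
  simpa using congrArg (Abelianization.lift θ) h

lemma ab_map {G H : Type} [Group G] [Group H] (θ : G →* H) {u v : G} (h : ab u = ab v) :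
    ab (θ u) = ab (θ v) := ab_com (ab.comp θ) h

def IAs (X : Type) : Subgroup (Au X) where
  carrier := {a | ∀ w, ab (a w) = ab w}
  mul_mem' := fun {a b} ha hb w => (ha (b w)).trans (hb w)
  one_mem' := fun _ => rfl
  inv_mem' := fun {a} ha w => by rw [← ha]; simp

lemma mem_IA {a : Au X} (h : ∀ x, ab (a (of x)) = ab (of x)) : a ∈ IAs X := fun w =>
  DFunLike.congr_fun (FreeGroup.ext_hom (ab.comp a.toMonoidHom) ab h) w

instance : (IAs X).Normal := ⟨fun a ha g w => by
  have := ab_map g.toMonoidHom (ha (g⁻¹ w))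
  simpa using this⟩

def mkAut (f g : X → FreeGroup X) (h1 : ∀ x, lift f (g x) = of x) (h2 : ∀ x, lift g (f x) = of x) :
    Au X :=
  MonoidHom.toMulEquiv (lift f) (lift g) (FreeGroup.ext_hom _ _ fun x => by simpa using h2 x)
    (FreeGroup.ext_hom _ _ fun x => by simpa using h1 x)

@[simp] lemma mkAut_of (f g : X → FreeGroup X) (h1 h2) (x : X) : mkAut f g h1 h2 (of x) = f x :=
  lift_apply_of

@[simp] lemma mkAut_inv (f g : X → FreeGroup X) (h1 h2) (x : X) :
    (mkAut f g h1 h2)⁻¹ (of x) = g x :=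
  lift_apply_of

open Classical in
noncomputable def ex (y : X) : FreeGroup X →* Multiplicative ℤ :=
  lift fun x => if x = y then Multiplicative.ofAdd 1 else 1

noncomputable def exi (y : X) (w : FreeGroup X) : ℤ := (ex y w).toAdd

@[simp] lemma exi_one (y : X) : exi y 1 = 0 := by simp [exi]
@[simp] lemma exi_mul (y : X) (u v) : exi y (u * v) = exi y u + exi y v := by simp [exi]
@[simp] lemma exi_inv (y : X) (u) : exi y u⁻¹ = -exi y u := by simp [exi]
@[simp] lemma exi_zpow (y : X) (u) (m : ℤ) : exi y (u ^ m) = m * exi y u := by simp [exi]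
open Classical in
@[simp] lemma exi_of (y x : X) : exi y (of x) = if x = y then 1 else 0 := by
  simp only [exi, ex, lift_apply_of]; split_ifs <;> rfl

lemma ab_ext {u v : FreeGroup X} (h : ∀ y, exi y u = exi y v) : ab u = ab v := by
  classical
  let A : FreeGroup X → FreeAbelianGroup X := fun w => Additive.ofMul (ab w)
  have k : ∀ y w, FreeAbelianGroup.toFinsupp (A w) y = exi y w := fun y w => by
    induction w using FreeGroup.induction_on with
    | C1 =>
      have : A 1 = 0 := rfl
      simp [this]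
    | of x =>
      have : A (of x) = FreeAbelianGroup.of x := rfl
      simp [this, Finsupp.single_apply]
    | inv_of x ih =>
      have : A (of x)⁻¹ = -A (of x) := rfl
      rw [this, map_neg, Finsupp.neg_apply, ih, exi_inv]
    | mul a b ha hb =>
      have : A (a * b) = A a + A b := rfl
      rw [this, map_add, Finsupp.add_apply, ha, hb, exi_mul]
  have : A u = A v := (FreeAbelianGroup.equivFinsupp X).injective (Finsupp.ext fun y => by
    exact (k y u).trans ((h y).trans (k y v).symm))
  exact this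

lemma elem (t : X) (m : ℤ) (hm : m * m = 1) (v : FreeGroup X) (S : Set X) (ht : t ∈ S)
    (hv : v ∈ sub (S \ {t})) :
    ∃ b : Au X, b (of t) = of t ^ m * v ∧ (∀ x ≠ t, b (of x) = of x) ∧ Pres b S := by
  classical
  have fx : ∀ u : FreeGroup X, lift (fun x => if x = t then u else of x) v = v := fun u =>
    eq_on _ (MonoidHom.id _) (fun x hx => by simp [show x ≠ t from hx.2]) hv
  have hv' : v ∈ sub S := sub_mono Set.sdiff_subset hv
  refine ⟨mkAut (fun x => if x = t then of t ^ m * v else of x)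
    (fun x => if x = t then (of t * v⁻¹) ^ m else of x) (fun x => ?_) (fun x => ?_), by simp,
    fun x hx => by simp [hx], Maps.of_gen (fun x hx => ?_) (fun x hx => ?_)⟩
  · by_cases h : x = t
    · simp [h, fx, ← zpow_mul, hm]
    · simp [h]
  · by_cases h : x = t
    · simp [h, fx, ← zpow_mul, hm]
    · simp [h]
  · rw [mkAut_of]; split_ifs
    exacts [mul_mem (zpow_mem (of_mem ht) _) hv', of_mem hx]
  · rw [mkAut_inv]; split_ifs
    exacts [zpow_mem (mul_mem (of_mem ht) (inv_mem hv')) _, of_mem hx]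

lemma unimod (S : Set X) (T : Finset X) (hd : ∀ x ∈ T, x ∉ S) (y : X) (hy : y ∈ T) (n : ℕ) :
    ∀ w, ∑ t ∈ T, (exi t w).natAbs = n → w ∈ sub (S ∪ T) →
      ∀ χ : FreeGroup X →* Multiplicative ℤ, (∀ s ∈ S, χ (of s) = 1) →
        χ w = Multiplicative.ofAdd 1 →
      ∃ b : Au X, (∀ x ∉ T, b (of x) = of x) ∧ Pres b (S ∪ T) ∧ ab (b (of y)) = ab w := by
  classical
  induction n using Nat.strong_induction_on with
  | _ n ih =>
  intro w hn hw χ h1 h2
  by_cases h : ∃ t ∈ T, ∃ t' ∈ T, t ≠ t' ∧ exi t w ≠ 0 ∧ (exi t w).natAbs ≤ (exi t' w).natAbs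
  · obtain ⟨t, ht, t', ht', hne, h3, h4⟩ := h
    obtain ⟨ε, hε⟩ : ∃ ε : ℤ, (exi t' w + exi t w * ε).natAbs < (exi t' w).natAbs := by
      by_cases h5 : 0 < exi t w ↔ 0 < exi t' w
      · exact ⟨-1, by omega⟩
      · exact ⟨1, by omega⟩
    obtain ⟨b, b1, b2, b3⟩ := elem t 1 rfl (of t' ^ ε) (S ∪ T) (Or.inr ht)
      (zpow_mem (of_mem (x := t') ((Set.mem_sdiff _).2 ⟨Or.inr ht', hne.symm⟩)) _)
    have k : ∀ z u, exi z (b u) = exi z u + exi t u * (if t' = z then ε else 0) := fun z u => by
      have k0 : ∀ x, exi z (b (of x)) = exi z (of x) + exi t (of x) * (if t' = z then ε else 0) :=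
        fun x => by
          by_cases hx : x = t
          · rw [hx, b1]; simp
          · rw [b2 x hx]; simp [hx]
      induction u using FreeGroup.induction_on with
      | C1 => simp
      | of x => exact k0 x
      | inv_of x _ => rw [map_inv, exi_inv, k0, exi_inv, exi_inv]; ring
      | mul a c ha hc => rw [map_mul, exi_mul, ha, hc, exi_mul, exi_mul]; ring
    obtain ⟨c, c1, c2, c3⟩ := ih _ (hn ▸ Finset.sum_lt_sum (fun z _ => by
        rw [k]; split_ifs with hz
        · exact hz ▸ hε.le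
        · simp) ⟨t', ht', by rw [k, if_pos rfl]; exact hε⟩) (b w) rfl ((b3 _).2 hw)
      (χ.comp b⁻¹.toMonoidHom) (fun s hs => by
        have : b⁻¹ (of s) = of s := inv_fix (b2 s fun e => hd t ht (e ▸ hs))
        simp only [MonoidHom.comp_apply, MulEquiv.coe_toMonoidHom, this, h1 s hs])
      (by simpa using h2)
    refine ⟨b⁻¹ * c, fun x hx => ?_, b3.inv.mul c2, ?_⟩
    · rw [MulAut.mul_apply, c1 x hx, inv_fix (b2 x fun e => hx (e ▸ ht))]
    · simpa using ab_map b⁻¹.toMonoidHom c3
  · obtain ⟨t, ht, h3⟩ : ∃ t ∈ T, ∀ t' ∈ T, t' ≠ t → exi t' w = 0 := by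
      by_cases h4 : ∃ t ∈ T, exi t w ≠ 0
      · obtain ⟨t, ht, h4⟩ := h4
        refine ⟨t, ht, fun t' ht' hne => ?_⟩
        by_contra h5
        rcases le_total (exi t w).natAbs (exi t' w).natAbs with h6 | h6
        · exact h ⟨t, ht, t', ht', hne.symm, h4, h6⟩
        · exact h ⟨t', ht', t, ht, hne, h5, h6⟩
      · push Not at h4
        exact ⟨y, hy, fun t' ht' _ => h4 t' ht'⟩
    let k : FreeGroup X →* FreeGroup X := lift fun x => if x ∈ S then of x else 1
    have k1 : k w ∈ sub S := map_mem k (S := Set.univ) (fun x _ => by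
      simp only [k, lift_apply_of]; split_ifs with hx
      exacts [of_mem hx, one_mem _]) (mem_univ' w)
    have k2 : ∀ z u, exi z (k u) = if z ∈ S then exi z u else 0 := fun z u => by
      have k0 : ∀ x, exi z (k (of x)) = if z ∈ S then exi z (of x) else 0 := fun x => by
        simp only [k, lift_apply_of]
        by_cases hx : x = z
        · subst hx; split_ifs <;> simp
        · split_ifs <;> simp [hx]
      induction u using FreeGroup.induction_on with
      | C1 => simp
      | of x => exact k0 x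
      | inv_of x _ => rw [map_inv, exi_inv, k0, exi_inv]; split_ifs <;> simp
      | mul a c ha hc => rw [map_mul, exi_mul, ha, hc, exi_mul]; split_ifs <;> simp
    have e : ab (of t ^ exi t w * k w) = ab w := ab_ext fun z => by
      rw [exi_mul, exi_zpow, k2, exi_of]
      by_cases hz : t = z
      · subst hz; simp [hd t ht]
      by_cases hz' : z ∈ S
      · simp [hz, hz']
      simp only [hz, hz', if_false, mul_zero, add_zero]
      by_cases hz'' : z ∈ T
      · exact (h3 z hz'' (Ne.symm hz)).symm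
      · have : ex z w ∈ (⊥ : Subgroup _) := map_mem (ex z) (fun x hx => by
          have : x ≠ z := by rintro rfl; exact hx.elim hz' hz''
          simp [ex, this]) hw
        simp only [Subgroup.mem_bot] at this
        simp [exi, this]
    have e2 := ab_com χ e
    have e3 : χ (k w) ∈ (⊥ : Subgroup _) := map_mem χ (fun s hs => h1 s hs) k1
    rw [Subgroup.mem_bot] at e3
    rw [map_mul, map_zpow, e3, h2, mul_one] at e2
    have e4 : exi t w * (χ (of t)).toAdd = 1 := by simpa using congrArg Multiplicative.toAdd e2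
    obtain ⟨b, b1, b2, b3⟩ := elem t (exi t w)
      (by rcases Int.eq_one_or_neg_one_of_mul_eq_one e4 with h | h <;> simp [h]) (k w) (S ∪ T)
      (Or.inr ht) (sub_mono (fun s hs => Set.mem_sdiff_of_mem (Or.inl hs) fun (e : s = t) => hd t ht (e ▸ hs)) k1)
    have sw : ∀ x ∈ S ∪ (T : Set X), Equiv.swap y t x ∈ S ∪ (T : Set X) := fun x hx => by
      rw [Equiv.swap_apply_def]; split_ifs
      exacts [Or.inr ht, Or.inr hy, hx]
    refine ⟨b * permHom (Equiv.swap y t), fun x hx => ?_, b3.mul (Maps.of_gen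
      (fun x hx => of_mem (sw x hx)) (fun x hx => ?_)), ?_⟩
    · rw [MulAut.mul_apply, permHom_of, Equiv.swap_apply_of_ne_of_ne (fun (e : x = y) => hx (e ▸ hy))
        (fun (e : x = t) => hx (e ▸ ht)), b2 x fun e => hx (e ▸ ht)]
    · rw [← map_inv, Equiv.swap_inv]; exact of_mem (sw x hx)
    · rw [MulAut.mul_apply, permHom_of, Equiv.swap_apply_left, b1, e]

lemma liftT (T : Finset X) : ∀ (S : Set X) (a : Au X), (∀ x ∈ T, x ∉ S) →
    (∀ s ∈ S, ab (a (of s)) = ab (of s)) → Pres a (S ∪ T) →
    ∃ b : Au X, (∀ x ∉ T, b (of x) = of x) ∧ Pres b (S ∪ T) ∧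
      ∀ t ∈ T, ab (a (b (of t))) = ab (of t) := by
  classical
  induction T using Finset.induction_on with
  | empty => exact fun S a _ _ _ => ⟨1, fun _ _ => rfl, Maps.one _, by simp⟩
  | insert y T hy ih =>
    intro S a hd h1 h2
    have hyT := Finset.mem_insert_self y T
    obtain ⟨b, b1, b2, b3⟩ := unimod S (insert y T) hd y hyT _ (a⁻¹ (of y)) rfl
      ((h2.inv _).2 (of_mem (Or.inr hyT))) ((ex y).comp a.toMonoidHom) (fun s hs => by
        have : s ≠ y := fun e => hd y hyT (e ▸ hs)
        simpa [ex, this] using ab_com (ex y) (h1 s hs)) (by simp [ex])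
    have e : insert y S ∪ (T : Set X) = S ∪ (insert y T : Finset X) := by
      ext x; simp only [Set.mem_union, Set.mem_insert_iff, Finset.coe_insert]; tauto
    have b4 : ab (a (b (of y))) = ab (of y) := by simpa using ab_map a.toMonoidHom b3
    obtain ⟨c, c1, c2, c3⟩ := ih (insert y S) (a * b)
      (fun x hx h => h.elim (fun e => hy (e ▸ hx)) (hd x (Finset.mem_insert_of_mem hx)))
      (by
        rintro s (rfl | hs)
        · exact b4
        · rw [MulAut.mul_apply, b1 s fun h => hd s h hs, h1 s hs])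
      (e ▸ h2.mul b2)
    refine ⟨b * c, fun x hx => ?_, b2.mul (e ▸ c2), fun t ht => ?_⟩
    · rw [MulAut.mul_apply, c1 x fun h => hx (Finset.mem_insert_of_mem h), b1 x hx]
    · rcases Finset.mem_insert.1 ht with rfl | ht
      · rw [MulAut.mul_apply, c1 t hy, b4]
      · exact c3 t ht

theorem stepIA (S0 S S' : Set X) (h0 : S0 ⊆ S) (hfin : (S \ S0).Finite) (h1 : S ⊆ S')
    (hfin' : (S' \ S).Finite) (g : Au X) (hI : g ∈ IAs X)
    (hg0 : Pres g S0) (hg : ∀ x ∈ S, g (of x) ∈ sub S') :
    ∃ a : Au X, (∀ x ∈ S, a (of x) = g (of x)) ∧ Pres a S' ∧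
      ∀ x ∈ S', ab (a (of x)) = ab (of x) := by
  obtain ⟨a, a1, a2⟩ := step S0 S S' h0 hfin h1 g hg0 hg
  have e : S ∪ (hfin'.toFinset : Set X) = S' := by simp [h1]
  have a3 : ∀ s ∈ S, ab (a (of s)) = ab (of s) := fun s hs => by rw [a1 s hs, hI]
  obtain ⟨b, b1, b2, b3⟩ := liftT hfin'.toFinset S a (fun x hx => by simpa using (by simpa using hx : x ∈ S' ∧ x ∉ S).2) a3
    (e.symm ▸ a2)
  have b4 : ∀ x ∈ S, b (of x) = of x := fun x hx => b1 x (by simp [hx])
  refine ⟨a * b, fun x hx => by rw [MulAut.mul_apply, b4 x hx, a1 x hx], a2.mul (e ▸ b2),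
    fun x hx => ?_⟩
  by_cases h : x ∈ S
  · rw [MulAut.mul_apply, b4 x h, a3 x h]
  · exact b3 x (by simp [hx, h])

end Pool.Agent.H.MP_8fc759_al
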