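import Mathlib
import Pool.Agent.H.MP_8fc759_al.Lift

namespace Pool.Agent.H.MP_8fc759_al
open FreeGroup (of lift lift_apply_of)
open Pool.Agent.H.MP_0c10a3_al

variable {X : Type}

theorem blocks2 [Infinite X] (φ : ℕ → Au X) :
    ∃ (J : Type) (_ : LinearOrder J) (_ : WellFoundedLT J) (_ : Nonempty J) (E : J × ℕ ≃ X),
      (∀ n x, φ n (of x) ∈ sub {y | (E.symm y).1 ≤ (E.symm x).1} ∧
        (φ n)⁻¹ (of x) ∈ sub {y | (E.symm y).1 ≤ (E.symm x).1}) ∧
      ∀ p : J ×ₗ ℕ, Cardinal.mk (Set.Iic p) < Cardinal.mk X := by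
  classical
  by_cases hc : Countable X
  · obtain ⟨E⟩ : Nonempty (Unit × ℕ ≃ X) := nonempty_equiv_of_countable
    have hu : ∀ (j : Unit) w, w ∈ sub {y | (E.symm y).1 ≤ j} := fun j w =>
      sub_mono (S := Set.univ) (fun y _ => (Subsingleton.elim (E.symm y).1 j).le) (mem_univ' w)
    refine ⟨Unit, inferInstance, inferInstance, inferInstance, E,
      fun n x => ⟨hu _ _, hu _ _⟩, fun p => ?_⟩
    refine (Set.Finite.lt_aleph0 ?_).trans_le (Cardinal.aleph0_le_mk X)
    refine ((Set.finite_le_nat (ofLex p).2).image fun m => toLex ((), m)).subset fun q hq => ?_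
    exact ⟨(ofLex q).2, by simpa using Prod.Lex.le_iff.1 hq, rfl⟩
  obtain ⟨E0⟩ : Nonempty (X × ℕ ≃ X) := by
    rw [← Cardinal.eq]; simp
  choose sp sp1 _ sp2 using fun w : FreeGroup X => exists_fin (mem_univ' w)
  let R : X → X → Prop := fun x y => (∃ n, y ∈ sp (φ n (of x)) ∨ y ∈ sp ((φ n)⁻¹ (of x))) ∨
    ∃ m, y = E0 ((E0.symm x).1, m)
  have hR : ∀ x, {y | R x y}.Countable := fun x => by
    refine ((Set.countable_iUnion fun n => ((sp1 (φ n (of x))).union
      (sp1 ((φ n)⁻¹ (of x)))).countable).union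
      (Set.countable_range fun m => E0 ((E0.symm x).1, m))).mono ?_
    rintro y (⟨n, h⟩ | ⟨m, h⟩)
    · exact Or.inl (Set.mem_iUnion.2 ⟨n, h⟩)
    · exact Or.inr ⟨m, h.symm⟩
  obtain ⟨_, wf, hord⟩ := Cardinal.exists_ord_eq_type_lt X
  let ν : X → X := fun x => wf.wf.min {y | Relation.ReflTransGen R y x} ⟨x, .refl⟩
  have h1 : ∀ x, Relation.ReflTransGen R (ν x) x := fun x =>
    wf.wf.min_mem {y | Relation.ReflTransGen R y x} ⟨x, .refl⟩
  have h2 : ∀ x y, R x y → ν y ≤ ν x := fun x y h =>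
    not_lt.1 (wf.wf.not_lt_min {z | Relation.ReflTransGen R z y} ((h1 x).tail h))
  let J := Set.range ν
  let ν' : X → J := fun x => ⟨ν x, x, rfl⟩
  have hb : ∀ j : J, Nonempty (ℕ ≃ {x // ν' x = j}) := fun j => by
    obtain ⟨_, x, rfl⟩ := j
    have c : Countable {y // ν' y = ⟨ν x, x, rfl⟩} :=
      ((countable_rtg R hR (ν x)).mono fun y (hy : ν' y = _) => by
        have : ν y = ν x := congrArg Subtype.val hy
        exact this ▸ h1 y).to_subtype
    have i : Infinite {y // ν' y = ⟨ν x, x, rfl⟩} := Infinite.of_injective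
      (fun m : ℕ => (⟨E0 ((E0.symm x).1, m), Subtype.ext (le_antisymm (h2 _ _ (Or.inr ⟨m, rfl⟩))
        (h2 _ _ (Or.inr ⟨(E0.symm x).2, by simp⟩)))⟩ : {y // ν' y = ⟨ν x, x, rfl⟩}))
      fun a b h => congrArg Prod.snd (E0.injective (congrArg Subtype.val h))
    exact nonempty_equiv_of_countable
  let E : J × ℕ ≃ X := ((Equiv.sigmaEquivProd J ℕ).symm.trans
    (Equiv.sigmaCongrRight fun j => (hb j).some)).trans (Equiv.sigmaFiberEquiv ν')
  have hE : ∀ x, (E.symm x).1 = ν' x := fun x => rfl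
  refine ⟨J, inferInstance, inferInstance, ⟨ν' (Classical.arbitrary X)⟩, E, fun n x => ⟨?_, ?_⟩,
    fun p => ?_⟩
  · exact sub_mono (fun y hy => h2 x y (Or.inl ⟨n, Or.inl hy⟩)) (sp2 _)
  · exact sub_mono (fun y hy => h2 x y (Or.inl ⟨n, Or.inr hy⟩)) (sp2 _)
  · have hu : Cardinal.aleph0 < Cardinal.mk X := by
      rw [Cardinal.aleph0_lt_mk_iff]; exact ⟨hc⟩
    have a : Cardinal.mk (Set.Iic (ofLex p).1.1) < Cardinal.mk X := by
      rw [← Set.Iio_insert]
      exact Cardinal.mk_insert_le.trans_lt (Cardinal.add_lt_of_lt hu.le (Cardinal.mk_Iio_lt _ hord)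
        (Cardinal.one_lt_aleph0.trans hu))
    refine (Cardinal.mk_le_of_injective (f := fun q : Set.Iic p =>
      ((⟨(ofLex q.1).1.1, Prod.Lex.monotone_fst _ _ q.2⟩, (ofLex q.1).2) :
        Set.Iic (ofLex p).1.1 × ℕ)) fun a b h => ?_).trans_lt ?_
    · simp only [Prod.mk.injEq, Subtype.mk.injEq] at h
      exact Subtype.ext (ofLex.injective (Prod.ext (Subtype.ext h.1) h.2))
    · simpa using Cardinal.mul_lt_of_lt hu.le a hu

variable {J : Type} [LinearOrder J]

lemma Ds_fin (E : J × ℕ ≃ X) (j : J) (m m' : ℕ) : (Ds E j m \ Ds E j m').Finite :=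
  ((Set.finite_lt_nat m).image fun c => E (j, c)).subset (by
    rintro x ⟨h1 | h1, h2⟩
    · exact absurd (Or.inl h1) h2
    · exact ⟨_, h1.2, by rw [← h1.1]; simp⟩)

lemma factorIA [WellFoundedLT J] (E : J × ℕ ≃ X) (t : J → ℕ → ℕ) (ht : ∀ j, StrictMono (t j))
    (h0 : ∀ j, t j 0 = 0) (δ : ℕ → Au X) (hI : ∀ i, δ i ∈ IAs X) (hδ0 : δ 0 = 1) (hδ1 : ∀ i, ∃ i' ≥ i, δ (i' + 1) = 1)
    (hδ2 : ∀ i j, Pres (δ i) (Ds E j 0))
    (hδ3 : ∀ i x, δ i (of x) ∈ sub {y | (E.symm y).1 ≤ (E.symm x).1})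
    (hδ4 : ∀ i j, ∀ x ∈ Ds E j (t j i), ((δ (i + 1))⁻¹ * δ i) (of x) ∈ sub (Ds E j (t j (i + 1)))) :
    ∃ α ∈ IAs X, (∀ j, Pres α (Ds E j 0)) ∧
      ∀ j i, Pres ((δ (i + 1))⁻¹ * α) (Ds E j (t j (i + 1))) := by
  obtain ⟨k, k1, k2, k3⟩ := levels E t ht h0
  let V : J → ℕ → Subgroup (FreeGroup X) := fun j i =>
    (sub (Ds E j (t j i))).comap (δ i)⁻¹.toMonoidHom
  have hV : ∀ j i, Maps (δ i)⁻¹ (V j i) (sub (Ds E j (t j i))) := fun j i w => Iff.rfl
  have hV' : ∀ j i, Maps (δ i) (sub (Ds E j (t j i))) (V j i) := fun j i => (hV j i).inv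
  have v1 : ∀ j, Monotone (V j) := fun j => monotone_nat_of_le_succ fun i w hw => by
    have := map_mem ((δ (i + 1))⁻¹ * δ i).toMonoidHom (hδ4 i j) hw
    simpa [V] using this
  have v0 : ∀ j, V j 0 = sub (Ds E j 0) := fun j => by ext w; simp [V, hδ0, h0]
  have v2 : ∀ j j' i, j < j' → V j i ≤ sub (Ds E j' 0) := fun j j' i h w hw => by
    have := map_mem (δ i).toMonoidHom (K := sub (Ds E j' 0)) (S := Ds E j (t j i))
      (fun x hx => sub_mono (fun y (hy : _ ≤ _) => Or.inl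
        (hx.elim (fun a => (hy.trans_lt a).trans h) fun a => (hy.trans a.1.le).trans_lt h))
        (hδ3 i x)) hw
    simpa using this
  have v3 : ∀ x, ∃ i, of x ∈ V (E.symm x).1 (i + 1) := fun x => by
    obtain ⟨i, h1, h2⟩ := hδ1 (E.symm x).2
    refine ⟨i, ?_⟩
    simp only [V, h2, inv_one, Subgroup.mem_comap]
    exact of_mem (Or.inr ⟨rfl, (Nat.lt_succ_of_le h1).trans_le (ht _).le_apply⟩)
  have hst : ∀ j i, ∃ a : Au X, Maps a (sub (Ds E j (t j i))) (V j i) ∧
      Maps a (sub (Ds E j (t j (i + 1)))) (V j (i + 1)) ∧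
      ∀ x ∈ Ds E j (t j (i + 1)), ab (a (of x)) = ab (of x) := fun j i => by
    obtain ⟨a, a1, a2, a3⟩ := stepIA (Ds E j 0) (Ds E j (t j i)) (Ds E j (t j (i + 1)))
      (Ds_mono E j (Nat.zero_le _))
      (Ds_fin E j _ _)
      (Ds_mono E j (ht j (Nat.lt_succ_self i)).le) (Ds_fin E j _ _) ((δ (i + 1))⁻¹ * δ i)
      (mul_mem (inv_mem (hI _)) (hI _))
      ((hδ2 _ j).inv.mul (hδ2 _ j)) (hδ4 i j)
    refine ⟨δ (i + 1) * a, fun w => ?_, (hV' j _).mul a2,
      fun x hx => (hI _ _).trans (a3 x hx)⟩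
    have e : ∀ w ∈ sub (Ds E j (t j i)), (δ (i + 1) * a) w = δ i w := fun w hw =>
      eq_on (δ (i + 1) * a).toMonoidHom (δ i).toMonoidHom (fun x hx => by simp [a1 x hx]) hw
    constructor
    · intro h
      have h1 : (δ i)⁻¹ ((δ (i + 1) * a) w) ∈ sub (Ds E j (t j i)) := h
      have h2 := e _ h1
      rw [MulAut.apply_inv_self] at h2
      exact (δ (i + 1) * a).injective h2 ▸ h1
    · intro h
      rw [e w h]; exact (hV' j i w).2 h
  choose a a1 a2 a3 using hst
  obtain ⟨α, hα0, hα⟩ := tri (fun x => toLex ((E.symm x).1, k x))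
    (fun p => a (ofLex p).1 (ofLex p).2) (fun p => V (ofLex p).1 ((ofLex p).2 + 1))
    (fun p => V (ofLex p).1 (ofLex p).2)
    (fun p q h => by
      rcases Prod.Lex.lt_iff.1 h with h | h
      · exact (v2 _ _ _ h).trans ((v0 _).ge.trans (v1 _ (Nat.zero_le _)))
      · rw [h.1]; exact v1 _ h.2)
    (fun p K h => by
      rcases hp : (ofLex p).2 with _ | i
      · rw [v0]
        refine sub_le fun x hx => ?_
        obtain ⟨i, hi⟩ := v3 x
        exact h (toLex ((E.symm x).1, i)) (Prod.Lex.lt_iff.2 (Or.inl (by simpa [Ds] using hx))) hi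
      · exact h (toLex ((ofLex p).1, i)) (Prod.Lex.lt_iff.2 (Or.inr ⟨rfl, by simp [hp]⟩)))
    (fun p => by rw [k2]; exact a1 _ _) (fun p => by rw [k3]; exact a2 _ _)
    (fun x => by obtain ⟨i, hi⟩ := v3 x; exact ⟨toLex ((E.symm x).1, i), hi⟩)
  have hα' : ∀ j i, Maps α (sub (Ds E j (t j (i + 1)))) (V j (i + 1)) := fun j i => by
    have := hα (toLex (j, i))
    rwa [k3] at this
  refine ⟨α, mem_IA fun x => by
      rw [hα0]
      have := k3 (toLex ((E.symm x).1, k x))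
      exact a3 _ _ x (this ▸ le_refl (toLex ((E.symm x).1, k x))), fun j => Maps.of_gen (fun x hx => ?_) (fun x hx => ?_),
    fun j i => (hV j _).mul (hα' j i)⟩
  · have hx' : (E.symm x).1 < j := by simpa [Ds] using hx
    exact v2 _ _ _ hx' ((hα' _ (E.symm x).2 _).2 (of_mem (Or.inr ⟨rfl, (ht _).le_apply⟩)))
  · have hx' : (E.symm x).1 < j := by simpa [Ds] using hx
    obtain ⟨i, hi⟩ := v3 x
    exact sub_mono (Ds_lt E hx' _ _) (((hα' _ i).inv _).2 hi)

lemma fibEquiv {P : Type} (c : X → P) (h1 : ∀ p, Countable {x // c x = p})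
    (h2 : ∀ p, Infinite {x // c x = p}) : ∃ e : P × ℕ ≃ X, ∀ x, (e.symm x).1 = c x := by
  have hb : ∀ p, Nonempty (ℕ ≃ {x // c x = p}) := fun p => nonempty_equiv_of_countable
  exact ⟨((Equiv.sigmaEquivProd P ℕ).symm.trans
    (Equiv.sigmaCongrRight fun j => (hb j).some)).trans (Equiv.sigmaFiberEquiv c), fun x => rfl⟩

def Cel (ψ : Au X) : Prop :=
  ∃ (P : Type) (_ : LinearOrder P) (_ : WellFoundedLT P) (e : P × ℕ ≃ X) (L : P → Set X)
    (R : Set P), (∀ p, ∀ x ∈ L p, (e.symm x).1 < p) ∧ (∀ p, Pres ψ (L p)) ∧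
    (∀ p, Pres ψ (L p ∪ {x | (e.symm x).1 = p})) ∧
    (∀ p, {x | (e.symm x).1 = p ∧ ψ (of x) ≠ of x}.Finite) ∧
    (∀ x, (e.symm x).1 ∈ R → ψ (of x) = of x) ∧ Cardinal.mk X ≤ Cardinal.mk R ∧
    ∀ x, Cardinal.mk {p | x ∉ L p} < Cardinal.mk X

theorem decA2 [WellFoundedLT J] (K : Subgroup (Au X)) (hK : ∀ ψ ∈ IAs X, Cel ψ → ψ ∈ K)
    (E : J × ℕ ≃ X) (hsm : ∀ p : J ×ₗ ℕ, Cardinal.mk (Set.Iic p) < Cardinal.mk X)
    (t : J → ℕ → ℕ) (ht : ∀ j, StrictMono (t j)) (h0 : ∀ j, t j 0 = 0)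
    (s : Au X) (hI : s ∈ IAs X) (hs : ∀ j i, Pres s (Ds E j (t j i))) : s ∈ K := by
  obtain ⟨k, k1, k2, k3⟩ := levels E t ht h0
  let lev : X → J ×ₗ ℕ := fun x => toLex ((E.symm x).1, k x)
  have col : ∀ ε < 2, ∀ ψ ∈ IAs X, (∀ x, k x % 2 ≠ ε → ψ (of x) = of x) →
      (∀ p, Pres ψ {x | lev x ≤ p}) → ψ ∈ K := by
    intro ε hε ψ hψ h1 h2
    let c : X → J ×ₗ ℕ := fun x =>
      toLex ((E.symm x).1, if k x % 2 = ε then k x else (Nat.unpair (k x / 2)).1)
    have c1 : ∀ x, c x ≤ lev x := fun x => Prod.Lex.le_iff.2 (Or.inr ⟨rfl, by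
      simp only [c, lev, ofLex_toLex]
      split_ifs
      · rfl
      · exact (Nat.unpair_left_le _).trans (Nat.div_le_self _ _)⟩)
    have c2 : ∀ x, k x % 2 = ε → c x = lev x := fun x hx => by simp [c, lev, hx]
    obtain ⟨e, he⟩ := fibEquiv c
      (fun p => Function.Injective.countable (f := fun x : {x // c x = p} => (E.symm x.1).2)
        fun a b h => Subtype.ext (E.symm.injective (Prod.ext
          (congrArg (fun p => (ofLex p).1) (a.2.trans b.2.symm)) h)))
      (fun p => Infinite.of_injective (fun m : ℕ => (⟨E ((ofLex p).1,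
          t (ofLex p).1 (2 * Nat.pair (ofLex p).2 m + (1 - ε))), by
          have a : (2 * Nat.pair (ofLex p).2 m + (1 - ε)) % 2 ≠ ε := by omega
          have b : (2 * Nat.pair (ofLex p).2 m + (1 - ε)) / 2 = Nat.pair (ofLex p).2 m := by omega
          simp only [c, k1, a, b, if_false, Equiv.symm_apply_apply, Nat.unpair_pair]
          rfl⟩ : {x // c x = p}))
        fun a b h => by
          have := (ht _).injective (congrArg Prod.snd (E.injective (congrArg Subtype.val h)))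
          exact (Nat.pair_eq_pair.1 (show Nat.pair (ofLex p).2 a = Nat.pair (ofLex p).2 b by
            omega)).2)
    have p1 : ∀ p, Pres ψ {x | lev x < p} := fun p =>
      pres_of_up lev h2 fun x (hx : lev x < p) y hy => hy.trans_lt hx
    have key : ∀ p (a : Au X), (∀ x, k x % 2 ≠ ε → a (of x) = of x) →
        (∀ p, Pres a {x | lev x ≤ p}) → Pres a {x | lev x < p} →
        ∀ x ∈ {x | lev x < p} ∪ {x | (e.symm x).1 = p},
          a (of x) ∈ sub ({x | lev x < p} ∪ {x | (e.symm x).1 = p}) := by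
      intro p a a1 a2 a3 x hx
      by_cases h : k x % 2 = ε
      · rcases hx with hx | hx
        · exact sub_mono Set.subset_union_left ((a3 _).2 (of_mem hx))
        · have hx' : lev x = p := by rw [← c2 x h, ← he]; exact hx
          refine sub_mono (fun y (hy : lev y ≤ p) => hy.lt_or_eq.imp_right fun h' => ?_)
            ((a2 p _).2 (of_mem hx'.le))
          have : k y = k x := congrArg (fun p => (ofLex p).2) (h'.trans hx'.symm)
          change (e.symm y).1 = p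
          rw [he, c2 y (this ▸ h), h']
      · rw [a1 x h]; exact of_mem hx
    refine hK ψ hψ ⟨J ×ₗ ℕ, inferInstance, inferInstance, e, fun p => {x | lev x < p},
      {p | (ofLex p).2 % 2 ≠ ε}, fun p x hx => he x ▸ (c1 x).trans_lt hx, p1, fun p =>
        Maps.of_gen (key p ψ h1 h2 (p1 p)) (key p ψ⁻¹ (fun x hx => inv_fix (h1 x hx))
          (fun p => (h2 p).inv) (p1 p).inv), fun p => ?_, fun x hx => h1 x fun h => hx ?_, ?_,
      fun x => ?_⟩
    · refine (Ds_fin E (ofLex p).1 (t (ofLex p).1 ((ofLex p).2 + 1))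
        (t (ofLex p).1 (ofLex p).2)).subset fun x hx => ?_
      have : lev x = p := by
        rw [← c2 x (by by_contra h; exact hx.2 (h1 x h)), ← he]; exact hx.1
      rw [← k2, ← k3]
      exact ⟨this.le, this.not_lt⟩
    · rw [he, c2 x h]; exact h
    · refine Cardinal.mk_le_of_injective (f := fun x => ⟨toLex ((E.symm x).1,
        2 * (E.symm x).2 + (1 - ε)), by simp only [Set.mem_ofPred_eq, ofLex_toLex]; omega⟩)
        fun a b h => E.symm.injective ?_
      have := Prod.mk.inj (toLex.injective (Subtype.mk.inj h))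
      exact Prod.ext this.1 (by omega)
    · have : {p | x ∉ {x | lev x < p}} = Set.Iic (lev x) := by ext p; simp
      rw [this]; exact hsm _
  have hup : ∀ p, Pres s {x | lev x ≤ p} := fun p => by rw [k3]; exact hs _ _
  obtain ⟨ψ, a1, a2, a3⟩ := split lev {p | (ofLex p).2 % 2 = 0} s
    (fun p _ => by rw [k2]; exact hs _ _) (fun p _ => hup p)
  have hψ : ψ ∈ IAs X := mem_IA fun x => by
    by_cases h : lev x ∈ {p : J ×ₗ ℕ | (ofLex p).2 % 2 = 0}
    · rw [a1 x h, hI]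
    · rw [a2 x h]
  have h1 := col 0 (by omega) ψ hψ a2 a3
  have h2 := col 1 (by omega) (ψ⁻¹ * s) (mul_mem (inv_mem hψ) hI) (fun x hx => by
      have : k x % 2 = 0 := by omega
      simp only [MulAut.mul_apply]
      rw [← a1 x this]; simp)
    (fun p => (a3 p).inv.mul (hup p))
  simpa using mul_mem h1 h2

theorem decIA [Infinite X] (K : Subgroup (Au X)) (hK : ∀ ψ ∈ IAs X, Cel ψ → ψ ∈ K)
    (φ : Au X) (hI : φ ∈ IAs X) : φ ∈ K := by
  obtain ⟨J, _, _, _, E, hφ, hsm⟩ := blocks2 fun _ => φ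
  obtain ⟨t, ht, h0, h1⟩ := chain E _ hφ
  have p0 : ∀ j, Pres φ (Ds E j 0) := fun j => by
    have : ∀ x ∈ Ds E j 0, {y | (E.symm y).1 ≤ (E.symm x).1} ⊆ Ds E j 0 :=
      fun x hx y (hy : _ ≤ _) => Or.inl (hy.trans_lt (by simpa [Ds] using hx))
    exact Maps.of_gen (fun x hx => sub_mono (this x hx) (hφ 0 x).1)
      (fun x hx => sub_mono (this x hx) (hφ 0 x).2)
  obtain ⟨α, aI, a1, a2⟩ := factorIA E t ht h0 (fun i => if i % 2 = 1 then φ else 1)
    (fun i => by split_ifs; exacts [hI, one_mem _]) (by simp)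
    (fun i => ⟨2 * i + 1, by omega, if_neg (by omega)⟩)
    (fun i j => by split_ifs; exacts [p0 j, Maps.one _])
    (fun i x => by split_ifs; exacts [(hφ 0 x).1, of_mem (le_refl (E.symm x).1)])
    (fun i j x hx => by
      split_ifs with b c c
      · omega
      · simpa using (h1 j _ 0 (by omega) x hx).2
      · simpa using (h1 j _ 0 (by omega) x hx).1
      · omega)
  have b1 := decA2 K hK E hsm (fun j i => t j (2 * i))
    (fun j => (ht j).comp fun a b h => by omega) (fun j => h0 j) α aI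
    (fun j i => by
      rcases i with _ | i
      · simpa [h0] using a1 j
      have := a2 j (2 * i + 1)
      rw [if_neg (by omega), inv_one, one_mul] at this
      exact this)
  have b2 := decA2 K hK E hsm (fun j i => t j (2 * i - 1))
    (fun j => (ht j).comp fun a b h => by omega) (fun j => h0 j) (φ⁻¹ * α)
    (mul_mem (inv_mem hI) aI)
    (fun j i => by
      rcases i with _ | i
      · simpa [h0] using (p0 j).inv.mul (a1 j)
      have := a2 j (2 * i)
      rw [if_pos (by omega)] at this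
      exact this)
  simpa using mul_mem b1 (inv_mem b2)

end Pool.Agent.H.MP_8fc759_al
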