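import Mathlib
import Pool.Agent.H.MP_8fc759_al.Fac

namespace Pool.Agent.H.MP_8fc759_al
open FreeGroup (of lift lift_apply_of)
open Pool.Agent.H.MP_0c10a3_al
open Sum (inl inr)

variable {X P P' : Type}

def Adm (X : Type) : Subgroup (Au (ℕ ⊕ X)) where
  carrier := {b | b ∈ IAs _ ∧ (∀ x, b (of (inr x)) = of (inr x)) ∧
    {i | b (of (inl i)) ≠ of (inl i)}.Finite}
  mul_mem' := fun {a b} ha hb => ⟨mul_mem ha.1 hb.1, fun x => by
    rw [MulAut.mul_apply, hb.2.1, ha.2.1], (ha.2.2.union hb.2.2).subset fun i hi => by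
      by_contra h
      simp only [Set.mem_union, Set.mem_ofPred_eq, not_or, not_not] at h
      exact hi (by rw [MulAut.mul_apply, h.2, h.1])⟩
  one_mem' := ⟨one_mem _, fun _ => rfl, by simp⟩
  inv_mem' := fun {a} ha => ⟨inv_mem ha.1, fun x => inv_fix (ha.2.1 x),
    ha.2.2.subset fun i hi h => hi (inv_fix h)⟩

lemma Adm.ext' {a b : Adm X} (h : ∀ i, a.1 (of (inl i)) = b.1 (of (inl i))) : a = b :=
  Subtype.ext (aut_ext fun z => by
    rcases z with i | x
    · exact h i
    · rw [a.2.2.1, b.2.2.1])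

def th (f : X → FreeGroup X) : FreeGroup (ℕ ⊕ X) →* FreeGroup (ℕ ⊕ X) :=
  lift (Sum.elim (fun i => of (inl i)) fun x => FreeGroup.map inr (f x))

@[simp] lemma th_inl (f : X → FreeGroup X) (i : ℕ) : th f (of (inl i)) = of (inl i) := lift_apply_of
@[simp] lemma th_inr (f : X → FreeGroup X) (x : X) : th f (of (inr x)) = FreeGroup.map inr (f x) :=
  lift_apply_of

lemma th_th (f g : X → FreeGroup X) (w) : th g (th f w) = th (fun x => lift g (f x)) w := by
  have a : (th g).comp (FreeGroup.map inr) = (FreeGroup.map inr).comp (lift g) := by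
    ext x; simp
  refine DFunLike.congr_fun (FreeGroup.ext_hom ((th g).comp (th f)) _ fun z => ?_) w
  rcases z with i | x
  · simp
  · simpa using DFunLike.congr_fun a (f x)

def push0 (f : X → FreeGroup X) (b : Adm X) : ℕ ⊕ X → FreeGroup (ℕ ⊕ X) :=
  Sum.elim (fun i => th f (b.1 (of (inl i)))) fun x => of (inr x)

lemma push0_th (f : X → FreeGroup X) (b : Adm X) (w) :
    lift (push0 f b) (th f w) = th f (b.1 w) := by
  have a : (lift (push0 f b)).comp (FreeGroup.map inr) = FreeGroup.map inr := by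
    ext x; simp [push0]
  refine DFunLike.congr_fun (FreeGroup.ext_hom ((lift (push0 f b)).comp (th f))
    ((th f).comp b.1.toMonoidHom) fun z => ?_) w
  rcases z with i | x
  · simp [push0]
  · simpa [b.2.2.1] using DFunLike.congr_fun a (f x)

lemma push0_inv (f : X → FreeGroup X) (b b' : Adm X) (h : b * b' = 1) (z) :
    lift (push0 f b) (push0 f b' z) = of z := by
  rcases z with i | x
  · have : b.1 (b'.1 (of (inl i))) = of (inl i) := by
      rw [← MulAut.mul_apply, ← Subgroup.coe_mul, h]; rfl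
    simp only [push0, Sum.elim_inl]
    exact (push0_th f b _).trans (by rw [this, th_inl])
  · simp [push0]

def push (f : X → FreeGroup X) (b : Adm X) : Adm X :=
  ⟨mkAut (push0 f b) (push0 f b⁻¹) (push0_inv f _ _ (mul_inv_cancel b))
    (push0_inv f _ _ (inv_mul_cancel b)), mem_IA fun z => by
      rw [mkAut_of]
      rcases z with i | x
      · simpa [push0] using ab_map (th f) (b.2.1 (of (inl i)))
      · rfl, fun x => by simp [push0], b.2.2.2.subset fun i hi h => hi (by simp [push0, h])⟩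

lemma push_inl (f : X → FreeGroup X) (b : Adm X) (i : ℕ) :
    (push f b).1 (of (inl i)) = th f (b.1 (of (inl i))) := by
  simp [push, push0]

lemma push_inv (f : X → FreeGroup X) (b : Adm X) (i : ℕ) :
    (push f b)⁻¹.1 (of (inl i)) = th f (b⁻¹.1 (of (inl i))) :=
  mkAut_inv _ _ (push0_inv f _ _ (mul_inv_cancel b)) (push0_inv f _ _ (inv_mul_cancel b)) _

def up (L : Set X) : Set (ℕ ⊕ X) := {z | ∀ x, z = inr x → x ∈ L}

lemma up_inl (L : Set X) (i : ℕ) : inl i ∈ up L := fun _ h => nomatch h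
lemma up_inr {L : Set X} {x : X} : inr x ∈ up L ↔ x ∈ L :=
  ⟨fun h => h x rfl, fun h _ e => Sum.inr.inj e ▸ h⟩

def Supp (b : Adm X) (L : Set X) : Prop := ∀ i, b.1 (of (inl i)) ∈ sub (up L)

lemma Supp.mono {b : Adm X} {L L' : Set X} (h : Supp b L) (h' : L ⊆ L') : Supp b L' :=
  fun i => sub_mono (S := up L) (T := up L') (fun _ hz x e => h' (hz x e)) (h i)

lemma supp_one (L : Set X) : Supp 1 L := fun i => of_mem (up_inl L i)

lemma push_congr {b : Adm X} {L : Set X} (h : Supp b L) {f g : X → FreeGroup X}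
    (e : ∀ x ∈ L, f x = g x) : push f b = push g b :=
  Adm.ext' fun i => by
    rw [push_inl, push_inl]
    refine eq_on _ _ (fun z hz => ?_) (h i)
    rcases z with i | x
    · simp
    · simp [e x (up_inr.1 hz)]

lemma push_push (f g : X → FreeGroup X) (b : Adm X) :
    push g (push f b) = push (fun x => lift g (f x)) b :=
  Adm.ext' fun i => by rw [push_inl, push_inl, push_inl, th_th]

lemma push_of (b : Adm X) : push of b = b :=
  Adm.ext' fun i => by
    rw [push_inl]
    refine DFunLike.congr_fun (FreeGroup.ext_hom (th of) (MonoidHom.id _) fun z => ?_) _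
    rcases z with i | x <;> simp

lemma th_mem {f : X → FreeGroup X} {L L' : Set X} (h : ∀ x ∈ L, f x ∈ sub L') {w}
    (hw : w ∈ sub (up L)) : th f w ∈ sub (up L') :=
  map_mem _ (fun z hz => by
    rcases z with i | x
    · rw [th_inl]; exact of_mem (up_inl _ i)
    · rw [th_inr]
      exact map_mem _ (fun y hy => of_mem (up_inr.2 hy)) (h x (up_inr.1 hz))) hw

lemma Supp.inv {b : Adm X} {L : Set X} (h : Supp b L) : Supp b⁻¹ L := fun i => by
  classical
  have e : push (fun x => if x ∈ L then of x else 1) b = b :=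
    (push_congr h fun x hx => if_pos hx).trans (push_of b)
  rw [← e, push_inv]
  refine th_mem (L := Set.univ) (fun x _ => ?_) 
    (sub_mono (S := Set.univ) (T := up Set.univ) (fun _ _ _ _ => trivial) (mem_univ' _))
  split_ifs with hx
  exacts [of_mem hx, one_mem _]

lemma exists_supp (b : Adm X) : ∃ S : Set X, S.Finite ∧ Supp b S := by
  choose T T1 _ T2 using fun i => exists_fin (mem_univ' (b.1 (of (inl i))))
  refine ⟨⋃ i ∈ {i | b.1 (of (inl i)) ≠ of (inl i)}, inr ⁻¹' T i,
    b.2.2.2.biUnion fun i _ => (T1 i).preimage Sum.inr_injective.injOn, fun i => ?_⟩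
  by_cases h : b.1 (of (inl i)) = of (inl i)
  · rw [h]; exact of_mem (up_inl _ i)
  · refine sub_mono (fun z hz x e => ?_) (T2 i)
    subst e
    exact Set.mem_iUnion₂.2 ⟨i, h, hz⟩

lemma card_adm [Infinite X] : Cardinal.mk (Adm X × X) = Cardinal.mk X := by
  have h1 : ∀ b : Adm X, ∃ M, ∀ i, M ≤ i → b.1 (of (inl i)) = of (inl i) := fun b => by
    obtain ⟨M, hM⟩ := b.2.2.2.bddAbove
    exact ⟨M + 1, fun i hi => by by_contra h; have := hM h; omega⟩
  choose M hM using h1
  have h2 : Cardinal.mk (Adm X) ≤ Cardinal.mk (List (FreeGroup (ℕ ⊕ X))) :=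
    Cardinal.mk_le_of_injective
      (f := fun b => (List.range (M b)).map fun i => b.1 (of (inl i))) fun a b h => by
        have e : M a = M b := by simpa using congrArg List.length h
        simp only [e, List.map_inj_left, List.mem_range] at h
        refine Adm.ext' fun i => ?_
        by_cases hi : i < M b
        · exact h i hi
        · rw [hM a i (by omega), hM b i (by omega)]
  have h3 : Cardinal.mk (List (FreeGroup (ℕ ⊕ X))) = Cardinal.mk X := by
    rw [Cardinal.mk_list_eq_mk, Cardinal.mk_freeGroup]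
    simp [Cardinal.add_eq_right (Cardinal.aleph0_le_mk X) (Cardinal.aleph0_le_mk X)]
  rw [h3] at h2
  simpa using Cardinal.mul_eq_right (Cardinal.aleph0_le_mk X) h2 (Cardinal.mk_ne_zero _)

def sb (e : P × ℕ ≃ X) (p : P) : FreeGroup (ℕ ⊕ X) →* FreeGroup X :=
  lift (Sum.elim (fun i => of (e (p, i))) of)

@[simp] lemma sb_inl (e : P × ℕ ≃ X) (p : P) (i : ℕ) : sb e p (of (inl i)) = of (e (p, i)) :=
  lift_apply_of
@[simp] lemma sb_inr (e : P × ℕ ≃ X) (p : P) (x : X) : sb e p (of (inr x)) = of x := lift_apply_of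

lemma sb_th (e : P × ℕ ≃ X) (e' : P' × ℕ ≃ X) (p : P) (p' : P') (c : FreeGroup X →* FreeGroup X)
    (h : ∀ i, c (of (e (p, i))) = of (e' (p', i))) (w) :
    sb e' p' (th (fun x => c (of x)) w) = c (sb e p w) := by
  have a : (sb e' p').comp (FreeGroup.map inr) = MonoidHom.id _ := by ext x; simp
  refine DFunLike.congr_fun (FreeGroup.ext_hom ((sb e' p').comp (th fun x => c (of x)))
    (c.comp (sb e p)) fun z => ?_) w
  rcases z with i | x
  · simp [h]
  · simpa using DFunLike.congr_fun a (c (of x))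

def Full (a : Au X) : Prop :=
  ∃ (P : Type) (_ : LinearOrder P) (_ : WellFoundedLT P) (e : P × ℕ ≃ X) (Φ : P → Adm X),
    (∀ p, Supp (Φ p) {x | (e.symm x).1 < p}) ∧
    (∀ p i, a (of (e (p, i))) = sb e p ((Φ p).1 (of (inl i)))) ∧
    ∀ t, Cardinal.mk X ≤ Cardinal.mk {p | Φ p = t}

lemma Full.IA {a : Au X} (h : Full a) : a ∈ IAs X := by
  obtain ⟨P, _, _, e, Φ, -, h, -⟩ := h
  refine mem_IA fun x => ?_
  obtain ⟨⟨p, i⟩, rfl⟩ := e.surjective x
  rw [h]
  simpa using ab_map (sb e p) ((Φ p).2.1 (of (inl i)))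

lemma omega_ex (e : P × ℕ ≃ X) (Φ : P → Adm X)
    (h : ∀ t, Cardinal.mk X ≤ Cardinal.mk {p | Φ p = t}) :
    ∃ ω : P ≃ Adm X × X, ∀ p, (ω p).1 = Φ p := by
  have hb : ∀ t, Nonempty ({p // Φ p = t} ≃ X) := fun t => Cardinal.eq.1 (le_antisymm
    (Cardinal.mk_le_of_injective (f := fun p => e (p.1, 0)) fun a b h =>
      Subtype.ext (congrArg Prod.fst (e.injective h))) (h t))
  exact ⟨(Equiv.sigmaFiberEquiv Φ).symm.trans ((Equiv.sigmaCongrRight fun t => (hb t).some).trans
    (Equiv.sigmaEquivProd _ _)), fun p => rfl⟩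

lemma half [Nonempty X] [LinearOrder P] [WellFoundedLT P] (e : P × ℕ ≃ X) (e' : P' × ℕ ≃ X)
    (ω : P ≃ Adm X × X) (ω' : P' ≃ Adm X × X) (h : ∀ p, Supp (ω p).1 {x | (e.symm x).1 < p}) :
    ∃ f : X → X, ∀ p i, f (e (p, i)) =
      e' (ω'.symm (push (fun x => of (f x)) (ω p).1, (ω p).2), i) := by
  obtain ⟨f, hf⟩ := tri_rec (fun x => (e.symm x).1) (fun x (f : X → X) =>
    e' (ω'.symm (push (fun x => of (f x)) (ω (e.symm x).1).1, (ω (e.symm x).1).2), (e.symm x).2))
    (fun x f g hfg => by rw [push_congr (h _) fun y hy => congrArg of (hfg y hy)])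
  exact ⟨f, fun p i => by rw [hf]; simp⟩

lemma half2 [LinearOrder P] [WellFoundedLT P] (e : P × ℕ ≃ X) (e' : P' × ℕ ≃ X)
    (ω : P ≃ Adm X × X) (ω' : P' ≃ Adm X × X) (h : ∀ p, Supp (ω p).1 {x | (e.symm x).1 < p})
    (f g : X → X)
    (hf : ∀ p i, f (e (p, i)) = e' (ω'.symm (push (fun x => of (f x)) (ω p).1, (ω p).2), i))
    (hg : ∀ p i, g (e' (p, i)) = e (ω.symm (push (fun x => of (g x)) (ω' p).1, (ω' p).2), i))
    (x : X) : g (f x) = x := by
  obtain ⟨⟨p, i⟩, rfl⟩ := e.surjective x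
  induction p using WellFoundedLT.induction generalizing i with
  | ind p ih =>
  rw [hf, hg, Equiv.apply_symm_apply, push_push, push_congr (h p) (g := of) (fun y hy => by
    obtain ⟨⟨q, j⟩, rfl⟩ := e.surjective y
    rw [lift_apply_of, ih q (by simpa using hy)]), push_of]
  simp

theorem uniq [Nonempty X] {a a' : Au X} (h : Full a) (h' : Full a') : ∃ c, a' = c * a * c⁻¹ := by
  obtain ⟨P, _, _, e, Φ, h1, h2, h3⟩ := h
  obtain ⟨P', _, _, e', Φ', h1', h2', h3'⟩ := h'
  obtain ⟨ω, hω⟩ := omega_ex e Φ h3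
  obtain ⟨ω', hω'⟩ := omega_ex e' Φ' h3'
  simp only [← hω, ← hω'] at h1 h2 h1' h2'
  obtain ⟨f, hf⟩ := half e e' ω ω' h1
  obtain ⟨g, hg⟩ := half e' e ω' ω h1'
  let π : Equiv.Perm X := ⟨f, g, half2 e e' ω ω' h1 f g hf hg, half2 e' e ω' ω h1' g f hg hf⟩
  refine ⟨permHom π, eq_mul_inv_of_mul_eq (aut_ext fun x => ?_)⟩
  obtain ⟨⟨p, i⟩, rfl⟩ := e.surjective x
  have := sb_th e e' p _ (permHom π).toMonoidHom (fun i => congrArg of (hf p i))
    ((ω p).1.1 (of (inl i)))
  rw [MulAut.mul_apply, MulAut.mul_apply, h2, permHom_of]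
  refine Eq.trans ?_ this
  change a' (of (f _)) = _
  rw [hf, h2', Equiv.apply_symm_apply, push_inl]
  rfl

theorem build [LinearOrder P] [WellFoundedLT P] (e : P × ℕ ≃ X) (Γ : P → Adm X)
    (h : ∀ p, Supp (Γ p) {x | (e.symm x).1 < p}) :
    ∃ a : Au X, ∀ p i, a (of (e (p, i))) = sb e p ((Γ p).1 (of (inl i))) := by
  classical
  let F : P → Adm X → X → FreeGroup X := fun p b x =>
    if (e.symm x).1 = p then sb e p (b.1 (of (inl (e.symm x).2))) else of x
  have k : ∀ p (b b' : Adm X), b * b' = 1 → Supp b' {x | (e.symm x).1 < p} →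
      ∀ x, lift (F p b) (F p b' x) = of x := by
    intro p b b' hb hs x
    obtain ⟨⟨q, i⟩, rfl⟩ := e.surjective x
    by_cases hq : q = p
    · subst hq
      have e1 := eq_on ((lift (F q b)).comp (sb e q)) ((sb e q).comp b.1.toMonoidHom)
        (fun z hz => by
          rcases z with j | y
          · simp [F]
          · have : (e.symm y).1 ≠ q := ne_of_lt (hz y rfl)
            simp [F, this, b.2.2.1]) (hs i)
      have e2 : b.1 (b'.1 (of (inl i))) = of (inl i) := by
        rw [← MulAut.mul_apply, ← Subgroup.coe_mul, hb]; rfl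
      simpa [F, e2] using e1
    · simp [F, hq]
  have k2 : ∀ p (b : Adm X), ∀ x ∈ {x | (e.symm x).1 < p}, F p b x ∈ sub {x | (e.symm x).1 < p} :=
    fun p b x hx => by
      simp only [F, if_neg (ne_of_lt hx)]; exact of_mem hx
  have k3 : ∀ p (b : Adm X), Supp b {x | (e.symm x).1 < p} →
      ∀ x ∈ {x | (e.symm x).1 ≤ p}, F p b x ∈ sub {x | (e.symm x).1 ≤ p} := fun p b hb x hx => by
    simp only [F]
    split_ifs
    · refine map_mem _ (fun z hz => ?_) (hb _)
      rcases z with j | y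
      · rw [sb_inl]; exact of_mem (by simp)
      · rw [sb_inr]; exact of_mem (show (e.symm y).1 ≤ p from le_of_lt (hz y rfl))
    · exact of_mem hx
  obtain ⟨a, ha, -⟩ := tri_pres (fun x => (e.symm x).1)
    (fun p => mkAut (F p (Γ p)) (F p (Γ p)⁻¹) (k p _ _ (mul_inv_cancel _) (h p).inv)
      (k p _ _ (inv_mul_cancel _) (h p)))
    (fun p => Maps.of_gen (fun x hx => by rw [mkAut_of]; exact k2 p _ x hx)
      (fun x hx => by rw [mkAut_inv]; exact k2 p _ x hx))
    (fun p => Maps.of_gen (fun x hx => by rw [mkAut_of]; exact k3 p _ (h p) x hx)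
      (fun x hx => by rw [mkAut_inv]; exact k3 p _ (h p).inv x hx))
  exact ⟨a, fun p i => by rw [ha]; simp [F]⟩

lemma formula (e : P × ℕ ≃ X) (p : P) (L : Set X) (ψ : Au X) (hI : ψ ∈ IAs X)
    (h0 : ∀ x ∈ L, (e.symm x).1 ≠ p) (h1 : Pres ψ L) (h2 : Pres ψ (L ∪ {x | (e.symm x).1 = p}))
    (h3 : {x | (e.symm x).1 = p ∧ ψ (of x) ≠ of x}.Finite) :
    ∃ b : Adm X, Supp b L ∧ ∀ i, ψ (of (e (p, i))) = sb e p (b.1 (of (inl i))) := by
  classical
  obtain ⟨r, r1, r2, r3⟩ := rel L _ ψ h1 h2 fun x hx h => h0 x h hx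
  let pb : FreeGroup X →* FreeGroup (ℕ ⊕ X) :=
    lift fun x => if (e.symm x).1 = p then of (inl (e.symm x).2) else of (inr x)
  have pb1 : ∀ i, pb (of (e (p, i))) = of (inl i) := fun i => by simp [pb]
  let F : Au X → ℕ ⊕ X → FreeGroup (ℕ ⊕ X) := fun r =>
    Sum.elim (fun i => pb (r (of (e (p, i))))) fun x => of (inr x)
  have k : ∀ r r' : Au X, r * r' = 1 → (∀ x ∉ {x | (e.symm x).1 = p}, r (of x) = of x) →
      ∀ z, lift (F r) (F r' z) = of z := by
    intro r r' hr hf z
    rcases z with i | x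
    · have e1 : (lift (F r)).comp pb = pb.comp r.toMonoidHom := by
        ext x
        obtain ⟨⟨q, j⟩, rfl⟩ := e.surjective x
        by_cases hq : q = p
        · simp [hq, pb1, F]
        · simp [hf (e (q, j)) (by simpa using hq), pb, hq, F]
      have e2 : r (r' (of (e (p, i)))) = of (e (p, i)) := by rw [← MulAut.mul_apply, hr]; rfl
      simpa [F, e2, pb1] using DFunLike.congr_fun e1 (r' (of (e (p, i))))
    · simp [F]
  have r4 : ∀ i, r (of (e (p, i))) = ψ (of (e (p, i))) := fun i => r1 _ (by simp)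
  refine ⟨⟨mkAut (F r) (F r⁻¹) (k _ _ (mul_inv_cancel _) r2)
    (k _ _ (inv_mul_cancel _) fun x hx => inv_fix (r2 x hx)), mem_IA fun z => ?_,
    fun x => by simp [F], (h3.image fun x => (e.symm x).2).subset fun i hi =>
      ⟨e (p, i), ⟨by simp, fun h => hi (by simp [F, r4, h, pb1])⟩, by simp⟩⟩, fun i => ?_,
    fun i => ?_⟩
  · rw [mkAut_of]
    rcases z with i | x
    · simpa [F, r4, pb1] using ab_map pb (hI (of (e (p, i))))
    · rfl
  · simp only [mkAut_of, F, Sum.elim_inl]
    refine map_mem pb (fun x hx => ?_) ((r3 _).2 (of_mem (Or.inr (by simp))))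
    simp only [pb, lift_apply_of]
    split_ifs with h
    · exact of_mem (up_inl _ _)
    · exact of_mem (up_inr.2 (hx.resolve_right h))
  · have : (sb e p).comp pb = MonoidHom.id _ := by
      ext x
      obtain ⟨⟨q, j⟩, rfl⟩ := e.surjective x
      by_cases hq : q = p <;> simp [hq, pb]
    simpa [F, r4] using (DFunLike.congr_fun this (ψ (of (e (p, i))))).symm

theorem fullstep [Infinite X] (ψ : Au X) (hI : ψ ∈ IAs X) (h : Cel ψ) :
    ∃ g, Full g ∧ Full (ψ * g) := by
  classical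
  obtain ⟨P, _, _, e, L, R, h1, h2, h3, h4, h5, h6, h7⟩ := h
  choose Ψ s1 s2 using fun p => formula e p (L p) ψ hI (fun x hx => (h1 p x hx).ne) (h2 p) (h3 p)
    (h4 p)
  obtain ⟨η⟩ : Nonempty (R ≃ Adm X × X) := by
    rw [← Cardinal.eq, card_adm]
    exact le_antisymm (Cardinal.mk_le_of_injective (f := fun p => e (p.1, 0)) fun a b h =>
      Subtype.ext (congrArg Prod.fst (e.injective h))) h6
  let Γ : P → Adm X := fun p =>
    if hp : p ∈ R then (if Supp (η ⟨p, hp⟩).1 (L p) then (η ⟨p, hp⟩).1 else 1) else 1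
  have g1 : ∀ p, Supp (Γ p) (L p) := fun p => by
    simp only [Γ]; split_ifs with a b
    exacts [b, supp_one _, supp_one _]
  have g2 : ∀ t, Cardinal.mk X ≤ Cardinal.mk {p | p ∈ R ∧ Γ p = t} := fun t => by
    obtain ⟨S, hS, ht⟩ := exists_supp t
    have hB : Cardinal.mk {p | ¬ S ⊆ L p} < Cardinal.mk X := by
      clear ht
      induction S, hS using Set.Finite.induction_on with
      | empty => simpa using Cardinal.aleph0_pos.trans_le (Cardinal.aleph0_le_mk X)
      | @insert x S _ _ ih =>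
        have : {p | ¬ insert x S ⊆ L p} = {p | x ∉ L p} ∪ {p | ¬ S ⊆ L p} := by
          ext p; simp only [Set.insert_subset_iff, Set.mem_ofPred_eq, Set.mem_union]; tauto
        rw [this]
        exact (Cardinal.mk_union_le _ _).trans_lt
          (Cardinal.add_lt_of_lt (Cardinal.aleph0_le_mk X) (h7 x) ih)
    by_contra hc
    refine ((Cardinal.mk_union_le _ _).trans_lt (Cardinal.add_lt_of_lt (Cardinal.aleph0_le_mk X)
      (not_le.1 hc) hB)).not_ge (Cardinal.mk_le_of_injective
        (f := fun k => ⟨(η.symm (t, k)).1, ?_⟩) fun a b h => ?_)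
    · by_cases hs : S ⊆ L (η.symm (t, k)).1
      · exact Or.inl ⟨(η.symm (t, k)).2, by simp [Γ, ht.mono hs]⟩
      · exact Or.inr hs
    · exact congrArg Prod.snd (η.symm.injective (Subtype.ext (Subtype.mk.inj h)))
  obtain ⟨g, hg⟩ := build e Γ fun p => (g1 p).mono (h1 p)
  refine ⟨g, ⟨P, inferInstance, inferInstance, e, Γ, fun p => (g1 p).mono (h1 p), hg, fun t =>
    (g2 t).trans (Cardinal.mk_le_mk_of_subset fun p hp => hp.2)⟩,
    P, inferInstance, inferInstance, e,
    fun p => if p ∈ R then push (fun x => ψ (of x)) (Γ p) else Ψ p, fun p => ?_, fun p i => ?_,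
    fun t => (g2 (push (fun x => ψ⁻¹ (of x)) t)).trans
      (Cardinal.mk_le_mk_of_subset fun p hp => ?_)⟩
  · refine Supp.mono ?_ (h1 p)
    beta_reduce
    split_ifs
    · intro i
      rw [push_inl]
      exact th_mem (fun x hx => (h2 p _).2 (of_mem hx)) (g1 p i)
    · exact s1 p
  · rw [MulAut.mul_apply, hg]
    beta_reduce
    split_ifs with hp
    · rw [push_inl]
      exact (sb_th e e p p ψ.toMonoidHom (fun i => h5 _ (by simpa using hp)) _).symm
    · simpa [Γ, hp] using s2 p i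
  · have : lift (fun x => ψ (of x)) = ψ.toMonoidHom := FreeGroup.ext_hom _ _ fun x => by simp
    simp only [Set.mem_ofPred_eq, hp.1, hp.2, if_true, push_push, this]
    simpa using push_of t

theorem main [Infinite X] :
    ∃ α ∈ IAs X, Subgroup.normalClosure ({α} : Set (Au X)) = IAs X := by
  have key : ∀ K : Subgroup (Au X), (∀ g, Full g → g ∈ K) → IAs X ≤ K := fun K hK φ hφ =>
    decIA K (fun ψ hI h => by
      obtain ⟨g, h1, h2⟩ := fullstep ψ hI h
      simpa using mul_mem (hK _ h2) (inv_mem (hK _ h1))) φ hφ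
  by_cases h : ∃ α : Au X, Full α
  · obtain ⟨α, hα⟩ := h
    refine ⟨α, hα.IA, le_antisymm (Subgroup.normalClosure_le_normal (by simpa using hα.IA))
      (key _ fun g hg => ?_)⟩
    obtain ⟨c, rfl⟩ := uniq hα hg
    have hN : (Subgroup.normalClosure ({α} : Set (Au X))).Normal := Subgroup.normalClosure_normal
    exact hN.conj_mem _ (Subgroup.subset_normalClosure rfl) _
  · exact ⟨1, one_mem _, le_antisymm (Subgroup.normalClosure_le_normal (by simp))
      (key _ fun g hg => absurd ⟨g, hg⟩ h)⟩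

end Pool.Agent.H.MP_8fc759_al
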